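import Pool.Agent.Lib_helper62.PToda.Core

namespace Pool.Agent.Lib_helper62.PToda

open Finset

section chars
variable {J : Type} [Fintype J] [DecidableEq J] {Q : Type} [Fintype Q] [DecidableEq Q]

lemma av_char (E : Finset (J × Q)) (hE : E.Nonempty) :
    av (fun X : J → Q → Bool => ∏ e ∈ E, sgn (X e.1 e.2)) = 0 := by
  obtain ⟨e0, he0⟩ := hE
  let flip : (J → Q → Bool) → (J → Q → Bool) := fun X j q => if (j, q) = e0 then !(X j q) else X j q
  have hff : ∀ X, flip (flip X) = X := by
    intro X
    funext j q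
    by_cases h : (j, q) = e0 <;> simp [flip, h]
  let e : (J → Q → Bool) ≃ (J → Q → Bool) := ⟨flip, flip, hff, hff⟩
  have h1 := av_equiv e (fun X : J → Q → Bool => ∏ e ∈ E, sgn (X e.1 e.2))
  have h2 : ∀ X : J → Q → Bool, ∏ x ∈ E, sgn ((e X) x.1 x.2) = (-1) * ∏ x ∈ E, sgn (X x.1 x.2) := by
    intro X
    rw [← Finset.mul_prod_erase E _ he0, ← Finset.mul_prod_erase E (fun x => sgn (X x.1 x.2)) he0,
      ← mul_assoc]
    congr 1
    · show sgn (flip X e0.1 e0.2) = _
      simp only [flip, Prod.mk.eta, if_true]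
      cases X e0.1 e0.2 <;> simp [sgn]
    · refine Finset.prod_congr rfl fun x hx => ?_
      have hne : x ≠ e0 := (Finset.mem_erase.1 hx).1
      show sgn (flip X x.1 x.2) = _
      simp only [flip, Prod.mk.eta, hne, if_false]
  simp only [h2] at h1
  rw [av_mul_left] at h1
  linarith

lemma av_bit (q : Q) : av (fun x : Q → Bool => if x q = true then (0:ℝ) else 1) = 1 / 2 := by
  let flip : (Q → Bool) → (Q → Bool) := fun x p => if p = q then !(x p) else x p
  have hff : ∀ X, flip (flip X) = X := by
    intro X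
    funext p
    by_cases h : p = q <;> simp [flip, h]
  let e : (Q → Bool) ≃ (Q → Bool) := ⟨flip, flip, hff, hff⟩
  have h1 := av_equiv e (fun x : Q → Bool => if x q = true then (0:ℝ) else 1)
  have h2 : ∀ x : Q → Bool, (if (e x) q = true then (0:ℝ) else 1)
      = 1 + (-1) * (if x q = true then (0:ℝ) else 1) := by
    intro x
    show (if flip x q = true then (0:ℝ) else 1) = _
    simp only [flip, if_true]
    cases x q <;> simp
  simp only [h2] at h1
  have h3 : av (fun x : Q → Bool => 1 + (-1) * (if x q = true then (0:ℝ) else 1))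
      = 1 + (-1) * av (fun x : Q → Bool => if x q = true then (0:ℝ) else 1) := by
    have := av_sum (Finset.univ : Finset (Fin 2))
      (fun i (x : Q → Bool) => if i = 0 then (1:ℝ) else (-1) * (if x q = true then (0:ℝ) else 1))
    simp only [Fin.sum_univ_two] at this
    simp only [Fin.isValue, if_true, one_ne_zero, if_false] at this
    rw [this, av_const, av_mul_left]
  rw [h3] at h1
  linarith

lemma av_no (L d : ℕ) (hL : 0 < L) :
    av (fun w : Inp J L d => ∏ j, (if w.2 j (fun i => w.1 i j) = true then (0:ℝ) else 1))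
      = (1 / 2) ^ Fintype.card J := by
  have : Nonempty (Fin L) := ⟨⟨0, hL⟩⟩
  rw [av_prod (fun (p : Fin d → J → Fin L) (X : J → (Fin d → Fin L) → Bool) =>
    ∏ j, (if X j (fun i => p i j) = true then (0:ℝ) else 1))]
  have h : ∀ p : Fin d → J → Fin L, av (fun X : J → (Fin d → Fin L) → Bool =>
      ∏ j, (if X j (fun i => p i j) = true then (0:ℝ) else 1)) = (1 / 2) ^ Fintype.card J := by
    intro p
    rw [av_pi (fun (j : J) (x : (Fin d → Fin L) → Bool) =>
      if x (fun i => p i j) = true then (0:ℝ) else 1)]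
    simp only [av_bit, Finset.prod_const, Finset.card_univ]
  simp only [h, av_const]

end chars

/-- The size of the pointer alphabet. -/
def ptr (d : ℕ) : ℕ := (d + 1) * 4 ^ (2 ^ d)

lemma ptr_pos (d : ℕ) : 0 < ptr d := by unfold ptr; positivity

theorem count_bound {β : Type} {J : Type} [Fintype J] [DecidableEq J] {d : ℕ}
    (inst : Inp J (ptr d) d → β → Bool) (owner : β → Option (Fin (d+1)))
    (hown : ∀ t w w', AgreeOff t w w' → ∀ b, owner b ≠ some t → inst w b = inst w' b)
    (N₀ κ₀ : ℕ) (B : ℕ) (hB2 : 2 ≤ B) (hB : ((N₀ + 1) ^ κ₀ + 1) ^ (d + 1) ≤ B) (S : Strat β)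
    (D : ℕ) (hS : S.Within N₀ κ₀ d D)
    (hno : ∀ w, S.Accepts (inst w) ↔ ∀ j, w.2 j (fun i => w.1 i j) = false) :
    2 ^ Fintype.card J ≤ B ^ D := by
  classical
  have hL := ptr_pos d
  have hne : Nonempty (Fin (ptr d)) := ⟨⟨0, hL⟩⟩
  obtain ⟨ι, _, φ, hc, hi, ha⟩ := cover inst owner hown N₀ κ₀ B hB2 hB S D hS
  -- each cylinder intersection is small
  have small : ∀ i, av (fun w : Inp J (ptr d) d => ∏ t, (if φ i t w = true then (1:ℝ) else 0))
      ≤ (1 / 4) ^ Fintype.card J := by
    intro i
    let X0 : J → (Fin d → Fin (ptr d)) → Bool := fun _ _ => false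
    have hd := disc_bound (J := J) (ptr d) hL d (J → (Fin d → Fin (ptr d)) → Bool) Finset.univ
      (fun X => X) (fun E hE _ => av_char E hE)
      (fun p => if φ i 0 (p, X0) = true then (1:ℝ) else 0)
      (fun t p X => if φ i t.succ (p, X) = true then (1:ℝ) else 0)
      (fun p => by split_ifs <;> simp) (fun t p X => by split_ifs <;> simp)
      (fun t p p' X h => by
        have : φ i t.succ (p, X) = φ i t.succ (p', X) := by
          apply hi
          refine ⟨fun _ => rfl, fun k hk => ?_⟩
          exact h k (fun h => hk (by rw [h]))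
        simp only [this])
    have heq : (fun w : Inp J (ptr d) d => ∏ t, (if φ i t w = true then (1:ℝ) else 0))
        = (fun z : (Fin d → J → Fin (ptr d)) × (J → (Fin d → Fin (ptr d)) → Bool) =>
        (∏ j ∈ Finset.univ, sgn (z.2 j (fun i => z.1 i j))) *
          (if φ i 0 (z.1, X0) = true then (1:ℝ) else 0) *
          ∏ t : Fin d, (if φ i t.succ (z.1, z.2) = true then (1:ℝ) else 0)) := by
      funext w
      have h0 : φ i 0 (w.1, X0) = φ i 0 w := by
        apply hi
        exact ⟨fun h => absurd rfl h, fun k _ => rfl⟩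
      rw [Fin.prod_univ_succ, h0]
      by_cases hall : ∀ t, φ i t w = true
      · have hacc : S.Accepts (inst w) := (ha w).2 ⟨i, hall⟩
        have hz := (hno w).1 hacc
        have : ∏ j ∈ Finset.univ, sgn (w.2 j (fun i => w.1 i j)) = 1 := by
          apply Finset.prod_eq_one
          intro j _
          rw [hz j]
          simp [sgn]
        rw [this, one_mul]
      · push Not at hall
        obtain ⟨t, ht⟩ := hall
        have hzero : (if φ i 0 w = true then (1:ℝ) else 0) *
            ∏ t : Fin d, (if φ i t.succ w = true then (1:ℝ) else 0) = 0 := by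
          rcases Fin.eq_zero_or_eq_succ t with rfl | ⟨t', rfl⟩
          · simp [ht]
          · rw [Finset.prod_eq_zero (Finset.mem_univ t') (by simp [ht]), mul_zero]
        rw [hzero, mul_assoc, hzero, mul_zero]
    rw [heq]
    set a := av (fun z : (Fin d → J → Fin (ptr d)) × (J → (Fin d → Fin (ptr d)) → Bool) =>
        (∏ j ∈ Finset.univ, sgn (z.2 j (fun i => z.1 i j))) *
          (if φ i 0 (z.1, X0) = true then (1:ℝ) else 0) *
          ∏ t : Fin d, (if φ i t.succ (z.1, z.2) = true then (1:ℝ) else 0)) with ha'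
    have h1 : |a| ^ (2 ^ d) ≤ (((1:ℝ) / 4) ^ Fintype.card J) ^ (2 ^ d) := by
      refine hd.trans ?_
      rw [← pow_mul, mul_comm (Fintype.card J), pow_mul, Finset.card_univ]
      refine pow_le_pow_left₀ (by positivity) ?_ _
      unfold ptr
      push_cast
      rw [div_le_iff₀ (by positivity), one_div, inv_pow]
      rw [mul_comm ((d:ℝ)+1), ← mul_assoc, inv_mul_cancel₀ (by positivity), one_mul]
      linarith
    have h2 : |a| ≤ ((1:ℝ) / 4) ^ Fintype.card J :=
      (pow_le_pow_iff_left₀ (abs_nonneg _) (by positivity) (by positivity)).1 h1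
    exact (le_abs_self _).trans h2
  -- the no instances are covered
  have hcov : av (fun w : Inp J (ptr d) d =>
      ∏ j, (if w.2 j (fun i => w.1 i j) = true then (0:ℝ) else 1))
      ≤ av (fun w : Inp J (ptr d) d => ∑ i, ∏ t, (if φ i t w = true then (1:ℝ) else 0)) := by
    apply av_mono
    intro w
    have hnn : ∀ i, 0 ≤ ∏ t, (if φ i t w = true then (1:ℝ) else 0) := by
      intro i
      apply Finset.prod_nonneg
      intro t _
      split_ifs <;> norm_num
    by_cases hall : ∀ j, w.2 j (fun i => w.1 i j) = false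
    · obtain ⟨i, hiw⟩ := (ha w).1 ((hno w).2 hall)
      have h1 : ∏ j, (if w.2 j (fun i => w.1 i j) = true then (0:ℝ) else 1) = 1 := by
        apply Finset.prod_eq_one
        intro j _
        simp [hall j]
      have h2 : ∏ t, (if φ i t w = true then (1:ℝ) else 0) = 1 := by
        apply Finset.prod_eq_one
        intro t _
        simp [hiw t]
      have h3 := Finset.single_le_sum (fun i _ => hnn i) (Finset.mem_univ i)
      rw [h2] at h3
      rw [h1]
      exact h3
    · push Not at hall
      obtain ⟨j, hj⟩ := hall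
      simp only [ne_eq, Bool.not_eq_false] at hj
      rw [Finset.prod_eq_zero (Finset.mem_univ j) (by simp [hj])]
      exact Finset.sum_nonneg fun i _ => hnn i
  rw [av_no (ptr d) d hL, av_sum] at hcov
  have h3 : ((1:ℝ) / 2) ^ Fintype.card J ≤ (B:ℝ) ^ D * (1 / 4) ^ Fintype.card J := by
    refine hcov.trans ?_
    refine (Finset.sum_le_sum fun i _ => small i).trans ?_
    rw [Finset.sum_const, Finset.card_univ, nsmul_eq_mul]
    gcongr
    exact_mod_cast hc
  have h4 : (2:ℝ) ^ Fintype.card J ≤ (B:ℝ) ^ D := by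
    have e : ((1:ℝ) / 2) ^ Fintype.card J = 2 ^ Fintype.card J * (1 / 4) ^ Fintype.card J := by
      rw [← mul_pow]; norm_num
    rw [e] at h3
    exact le_of_mul_le_mul_right h3 (by positivity)
  exact_mod_cast h4

end Pool.Agent.Lib_helper62.PToda
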