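import Pool.Agent.Lib_helper62.PToda.Bound

namespace Pool.Agent.Lib_helper62.PToda

open Finset Filter

section inst
variable {m L d k n : ℕ}

/-- The list of a tuple. -/
def code (s : Fin k → Fin n) : List ℕ := List.ofFn (fun i => (s i : ℕ))

lemma code_injective : Function.Injective (code : (Fin k → Fin n) → List ℕ) := by
  intro s s' h
  have := List.ofFn_injective h
  funext i
  exact Fin.ext (congrFun this i)

/-- The bit in position `v` of the row with address `(j, a)`. -/
def rowBit (w : Inp (Fin m) L d) (e : Fin m × (Fin d → Fin L)) (v : ℕ) : Bool :=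
  if v = 0 then w.2 e.1 e.2
  else if h' : v - 1 < d then decide (w.1 ⟨v - 1, h'⟩ e.1 = e.2 ⟨v - 1, h'⟩)
  else true

open Classical in
/-- The oracle of an input of the players. -/
noncomputable def mkInst (emb : (Fin m × (Fin d → Fin L)) ↪ (Fin k → Fin n))
    (A₀ : Bits → Bool) (w : Inp (Fin m) L d) : Bits → Bool := fun b =>
  if b.1 = k ∧ b.2.1 = n then
    (if h : ∃ e, code (emb e) = b.2.2.1 then rowBit w h.choose b.2.2.2 else false)
  else A₀ b

open Classical in
/-- The player who owns a bit. -/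
noncomputable def mkOwner (emb : (Fin m × (Fin d → Fin L)) ↪ (Fin k → Fin n)) :
    Bits → Option (Fin (d+1)) := fun b =>
  if b.1 = k ∧ b.2.1 = n then
    (if ∃ e, code (emb e) = b.2.2.1 then
      (if h' : b.2.2.2 < d + 1 then some ⟨b.2.2.2, h'⟩ else none)
    else none)
  else none

lemma rowBit_congr (t : Fin (d+1)) (w w' : Inp (Fin m) L d)
    (h : AgreeOff t w w') (e : Fin m × (Fin d → Fin L)) (v : ℕ) (hv : v ≠ t.1) :
    rowBit w e v = rowBit w' e v := by
  unfold rowBit
  split_ifs with h0 h1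
  · rw [h.1 (fun ht => hv (by rw [h0, ht]; rfl))]
  · have := h.2 ⟨v - 1, h1⟩ (fun ht => hv (by
      rw [← ht]
      simp only [Fin.val_succ]
      omega))
    rw [this]
  · rfl

lemma mkInst_congr (emb : (Fin m × (Fin d → Fin L)) ↪ (Fin k → Fin n))
    (A₀ : Bits → Bool) (t : Fin (d+1)) (w w' : Inp (Fin m) L d)
    (h : AgreeOff t w w') (b : Bits) (hb : mkOwner emb b ≠ some t) :
    mkInst emb A₀ w b = mkInst emb A₀ w' b := by
  classical
  unfold mkOwner at hb
  unfold mkInst
  by_cases h1 : b.1 = k ∧ b.2.1 = n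
  · rw [if_pos h1] at hb ⊢
    rw [if_pos h1]
    by_cases h2 : ∃ e, code (emb e) = b.2.2.1
    · rw [if_pos h2] at hb
      rw [dif_pos h2, dif_pos h2]
      apply rowBit_congr t w w' h
      intro hv
      apply hb
      rw [dif_pos (by rw [hv]; exact t.2)]
      congr 1
      exact Fin.ext hv
    · rw [dif_neg h2, dif_neg h2]
  · rw [if_neg h1, if_neg h1]

lemma mkInst_slice (emb : (Fin m × (Fin d → Fin L)) ↪ (Fin k → Fin n))
    (A₀ : Bits → Bool) (w : Inp (Fin m) L d) (e : Fin m × (Fin d → Fin L)) (v : ℕ) :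
    mkInst emb A₀ w (k, n, code (emb e), v) = rowBit w e v := by
  classical
  unfold mkInst
  rw [if_pos ⟨rfl, rfl⟩]
  have h : ∃ e', code (emb e') = code (emb e) := ⟨e, rfl⟩
  rw [dif_pos h]
  have := emb.injective (code_injective h.choose_spec)
  rw [this]

lemma mkInst_slice' (emb : (Fin m × (Fin d → Fin L)) ↪ (Fin k → Fin n))
    (A₀ : Bits → Bool) (w : Inp (Fin m) L d) (s : Fin k → Fin n) (v : ℕ)
    (hs : ¬ ∃ e, emb e = s) :
    mkInst emb A₀ w (k, n, code s, v) = false := by
  classical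
  unfold mkInst
  rw [if_pos ⟨rfl, rfl⟩, dif_neg]
  rintro ⟨e, he⟩
  exact hs ⟨e, code_injective he⟩

lemma mkInst_off (emb : (Fin m × (Fin d → Fin L)) ↪ (Fin k → Fin n))
    (A₀ : Bits → Bool) (w : Inp (Fin m) L d) (b : Bits) (hb : ¬ (b.1 = k ∧ b.2.1 = n)) :
    mkInst emb A₀ w b = A₀ b := by
  classical
  unfold mkInst
  rw [if_neg hb]

lemma yes_mkInst (hn : d + 1 ≤ n) (emb : (Fin m × (Fin d → Fin L)) ↪ (Fin k → Fin n))
    (A₀ : Bits → Bool) (w : Inp (Fin m) L d) :
    Yes (mkInst emb A₀ w) k n ↔ ¬ ∀ j, w.2 j (fun i => w.1 i j) = false := by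
  constructor
  · rintro ⟨s, hs⟩ hall
    by_cases hex : ∃ e, emb e = s
    · obtain ⟨e, rfl⟩ := hex
      have hs' : ∀ v : Fin n, rowBit w e v = true := by
        intro v
        rw [← mkInst_slice emb A₀ w e v]
        exact hs v
      have h0 := hs' ⟨0, by omega⟩
      simp only [rowBit, if_true] at h0
      have hp : e.2 = fun i => w.1 i e.1 := by
        funext i
        have hi := hs' ⟨i.1 + 1, by have := i.2; omega⟩
        unfold rowBit at hi
        rw [if_neg (by simp), dif_pos (by simp)] at hi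
        simp only [Nat.add_sub_cancel, Fin.eta, decide_eq_true_eq] at hi
        exact hi.symm
      have := hall e.1
      rw [← hp, h0] at this
      exact absurd this (by simp)
    · have h1 := hs ⟨0, by omega⟩
      have h2 := mkInst_slice' emb A₀ w s 0 hex
      unfold code at h2
      rw [h2] at h1
      exact absurd h1 (by simp)
  · intro h
    push Not at h
    obtain ⟨j, hj⟩ := h
    simp only [ne_eq, Bool.not_eq_false] at hj
    refine ⟨emb (j, fun i => w.1 i j), fun v => ?_⟩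
    have h2 := mkInst_slice emb A₀ w (j, fun i => w.1 i j) v
    unfold code at h2
    rw [h2]
    unfold rowBit
    split_ifs with h0 h1
    · exact hj
    · simp
    · rfl

end inst

/-- The lower bound for one instance. -/
theorem instance_bound (k n d m N₀ κ₀ D : ℕ) (hn : d + 1 ≤ n) (hm : m * ptr d ^ d ≤ n ^ k)
    (A₀ : Bits → Bool) (S : Strat Bits) (hS : S.Within N₀ κ₀ d D)
    (hdec : ∀ A : Bits → Bool, (∀ b : Bits, ¬ (b.1 = k ∧ b.2.1 = n) → A b = A₀ b) →
      (S.Accepts A ↔ ¬ Yes A k n)) :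
    2 ^ m ≤ ((((N₀ + 1) ^ κ₀ + 1) ^ (d + 1)) ^ D) := by
  have hcard : Fintype.card (Fin m × (Fin d → Fin (ptr d))) ≤ Fintype.card (Fin k → Fin n) := by
    simp only [Fintype.card_prod, Fintype.card_fin, Fintype.card_fun]
    exact hm
  obtain ⟨emb⟩ := Function.Embedding.nonempty_of_card_le hcard
  have hB2 : 2 ≤ ((N₀ + 1) ^ κ₀ + 1) ^ (d + 1) := by
    have h1 : 1 ≤ (N₀ + 1) ^ κ₀ := Nat.one_le_pow _ _ (by omega)
    calc 2 = 2 ^ 1 := by norm_num
      _ ≤ ((N₀ + 1) ^ κ₀ + 1) ^ 1 := Nat.pow_le_pow_left (by omega) _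
      _ ≤ ((N₀ + 1) ^ κ₀ + 1) ^ (d + 1) := Nat.pow_le_pow_right (by omega) (by omega)
  have := count_bound (J := Fin m) (d := d) (mkInst emb A₀) (mkOwner emb)
    (fun t w w' h b hb => mkInst_congr emb A₀ t w w' h b hb) N₀ κ₀
    (((N₀ + 1) ^ κ₀ + 1) ^ (d + 1)) hB2 le_rfl S D hS (by
      intro w
      rw [hdec _ (fun b hb => mkInst_off emb A₀ w b hb), yes_mkInst hn, not_not])
  rw [Fintype.card_fin] at this
  exact this

end Pool.Agent.Lib_helper62.PToda
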