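import Mathlib

namespace Pool.Agent.Lib_helper62.PToda

/-- Decision trees which query the bits of an oracle `x : β → Bool`. -/
inductive DT (β : Type) : Type where
  | leaf (b : Bool) : DT β
  | node (q : β) (t0 t1 : DT β) : DT β

/-- The output of a decision tree on an oracle. -/
def DT.eval {β : Type} (x : β → Bool) : DT β → Bool
  | .leaf b => b
  | .node q t0 t1 => if x q = true then t1.eval x else t0.eval x

/-- The depth: the largest number of bits queried on a path. -/
def DT.depth {β : Type} : DT β → ℕ
  | .leaf _ => 0
  | .node _ t0 t1 => max t0.depth t1.depth + 1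

/-- Oracle algorithms with nondeterministic bits and exact counting queries. A counting node
asks for the exact number of tuples `y` of length `κ` over an `N` element set whose test `T y`
(a decision tree) accepts, and continues according to the answer. -/
inductive Strat (β : Type) : Type where
  | answer (b : Bool) : Strat β
  | guess (s0 s1 : Strat β) : Strat β
  | count (N κ : ℕ) (T : (Fin κ → Fin N) → DT β) (next : Fin (N ^ κ + 1) → Strat β) : Strat β

/-- The number of tuples whose test accepts the oracle. -/
def countOf {β : Type} {N κ : ℕ} (T : (Fin κ → Fin N) → DT β) (x : β → Bool) : ℕ :=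
  (Finset.univ.filter (fun y => (T y).eval x = true)).card

lemma countOf_lt {β : Type} {N κ : ℕ} (T : (Fin κ → Fin N) → DT β) (x : β → Bool) :
    countOf T x < N ^ κ + 1 := by
  unfold countOf
  have := Finset.card_filter_le (Finset.univ : Finset (Fin κ → Fin N))
    (fun y => (T y).eval x = true)
  simp only [Finset.card_univ, Fintype.card_fun, Fintype.card_fin] at this
  omega

/-- Acceptance: some sequence of nondeterministic bits leads to the answer `true`. -/
def Strat.Accepts {β : Type} (x : β → Bool) : Strat β → Prop
  | .answer b => b = true
  | .guess s0 s1 => s0.Accepts x ∨ s1.Accepts x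
  | .count _ _ T next => (next ⟨countOf T x, countOf_lt T x⟩).Accepts x

/-- Resource bounds: at most `D` guesses and counting queries on every path, and every counting
query is over tuples of length at most `κ₀` of elements of a set with at most `N₀` elements, with
tests of depth at most `d₀`. -/
def Strat.Within {β : Type} (N₀ κ₀ d₀ : ℕ) : ℕ → Strat β → Prop
  | _, .answer _ => True
  | 0, .guess _ _ => False
  | 0, .count _ _ _ _ => False
  | D + 1, .guess s0 s1 => s0.Within N₀ κ₀ d₀ D ∧ s1.Within N₀ κ₀ d₀ D
  | D + 1, .count N κ T next => N ≤ N₀ ∧ κ ≤ κ₀ ∧ (∀ y, (T y).depth ≤ d₀) ∧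
      ∀ c, (next c).Within N₀ κ₀ d₀ D

/-- Fixed-parameter tractable resources: for the parameter `k` and the input size `n` the number of
steps and the size `N` of the sets are at most `F k * n ^ c`, and the length of the tuples and the
depth of the tests are at most `G k`. -/
def FptBounded {β : Type} (c : ℕ) (S : ℕ → ℕ → Strat β) : Prop :=
  ∃ F G : ℕ → ℕ, ∀ k n, (S k n).Within (F k * n ^ c) (G k) (G k) (F k * n ^ c)

/-- The bits of an oracle: one bit for every question `(k, n, l, v)`, where `l` is a list. -/
abbrev Bits : Type := ℕ × ℕ × List ℕ × ℕ

/-- The problem `Q_A` with parameter `k` on the input `n` (in unary): is there a `k`-tuple `s` of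
elements of `{0, ..., n-1}` such that `A (k, n, s, v)` holds for every `v` in `{0, ..., n-1}`? -/
def Yes (A : Bits → Bool) (k n : ℕ) : Prop :=
  ∃ s : Fin k → Fin n, ∀ v : Fin n, A (k, n, List.ofFn (fun i => (s i : ℕ)), (v : ℕ)) = true

/-- Deterministic oracle algorithms: no guesses. -/
def Strat.Deterministic {β : Type} : Strat β → Prop
  | .answer _ => True
  | .guess _ _ => False
  | .count _ _ _ next => ∀ c, (next c).Deterministic

end Pool.Agent.Lib_helper62.PToda
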