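import Pool.Agent.Lib_helper62.PToda.Disc
import Pool.Agent.Lib_helper62.PToda.Model

namespace Pool.Agent.Lib_helper62.PToda

open Finset

section dt
variable {β : Type}

/-- The list of the bits queried by a decision tree on an oracle. -/
def DT.path (x : β → Bool) : DT β → List β
  | .leaf _ => []
  | .node q t0 t1 => q :: (if x q = true then t1.path x else t0.path x)

lemma DT.path_length (x : β → Bool) (t : DT β) : (t.path x).length ≤ t.depth := by
  induction t with
  | leaf b => simp [DT.path]
  | node q t0 t1 h0 h1 =>
    simp only [DT.path, DT.depth, List.length_cons]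
    split_ifs <;> omega

lemma DT.congr (x x' : β → Bool) (t : DT β) (h : ∀ b ∈ t.path x, x b = x' b) :
    t.path x' = t.path x ∧ t.eval x' = t.eval x := by
  induction t with
  | leaf b => simp [DT.path, DT.eval]
  | node q t0 t1 h0 h1 =>
    have hq : x q = x' q := h q (by simp [DT.path])
    by_cases hx : x q = true
    · have hx' : x' q = true := by rw [← hq]; exact hx
      have := h1 (fun b hb => h b (by simp [DT.path, hx, hb]))
      simp [DT.path, DT.eval, hx, hx', this.1, this.2]
    · have hx' : ¬ x' q = true := by rw [← hq]; exact hx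
      have := h0 (fun b hb => h b (by simp [DT.path, hx, hb]))
      simp only [Bool.not_eq_true] at hx hx'
      simp [DT.path, DT.eval, hx, hx', this.1, this.2]

end dt

/-- A player whose input is not read by a short list of bits. -/
noncomputable def missP {β : Type} {d : ℕ} (owner : β → Option (Fin (d+1))) (l : List β) :
    Fin (d+1) := by
  classical
  exact if h : ∃ t, ∀ b ∈ l, owner b ≠ some t then h.choose else 0

lemma missP_spec {β : Type} {d : ℕ} (owner : β → Option (Fin (d+1))) (l : List β)
    (hl : l.length ≤ d) : ∀ b ∈ l, owner b ≠ some (missP owner l) := by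
  classical
  have h : ∃ t, ∀ b ∈ l, owner b ≠ some t := by
    by_contra hcon
    push Not at hcon
    have hsub : (Finset.univ : Finset (Fin (d+1))) ⊆ (l.filterMap owner).toFinset := by
      intro t _
      obtain ⟨b, hb, hbt⟩ := hcon t
      rw [List.mem_toFinset, List.mem_filterMap]
      exact ⟨b, hb, hbt⟩
    have h1 := Finset.card_le_card hsub
    rw [Finset.card_univ, Fintype.card_fin] at h1
    have h2 := List.toFinset_card_le (l.filterMap owner)
    have h3 := List.length_filterMap_le owner l
    omega
  unfold missP
  rw [dif_pos h]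
  exact h.choose_spec

/-- Inputs of the players: the table of player `0` and the pointers of the players `1, ..., d`. -/
abbrev Inp (J : Type) (L d : ℕ) : Type := (Fin d → J → Fin L) × (J → (Fin d → Fin L) → Bool)

/-- The two inputs differ only in the part of player `t`. -/
def AgreeOff {J : Type} {L d : ℕ} (t : Fin (d+1)) (w w' : Inp J L d) : Prop :=
  (t ≠ 0 → w.2 = w'.2) ∧ ∀ i : Fin d, i.succ ≠ t → w.1 i = w'.1 i

lemma AgreeOff.symm {J : Type} {L d : ℕ} {t : Fin (d+1)} {w w' : Inp J L d}
    (h : AgreeOff t w w') : AgreeOff t w' w :=
  ⟨fun ht => (h.1 ht).symm, fun i hi => (h.2 i hi).symm⟩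

/-- Cover by cylinder intersections. -/
theorem cover {β : Type} {J : Type} {L d : ℕ} (inst : Inp J L d → β → Bool)
    (owner : β → Option (Fin (d+1)))
    (hown : ∀ t w w', AgreeOff t w w' → ∀ b, owner b ≠ some t → inst w b = inst w' b)
    (N₀ κ₀ : ℕ) (B : ℕ) (hB2 : 2 ≤ B) (hB : ((N₀ + 1) ^ κ₀ + 1) ^ (d + 1) ≤ B) (S : Strat β) :
    ∀ D, S.Within N₀ κ₀ d D → ∃ (ι : Type) (_ : Fintype ι)
      (φ : ι → Fin (d+1) → Inp J L d → Bool), Fintype.card ι ≤ B ^ D ∧
      (∀ i t w w', AgreeOff t w w' → φ i t w = φ i t w') ∧
      ∀ w, S.Accepts (inst w) ↔ ∃ i, ∀ t, φ i t w = true := by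
  classical
  induction S with
  | answer b =>
    intro D _
    refine ⟨Unit, inferInstance, fun _ _ _ => b, ?_, fun _ _ _ _ _ => rfl, ?_⟩
    · rw [Fintype.card_unit]
      exact Nat.one_le_pow _ _ (by omega)
    · intro w
      simp [Strat.Accepts]
  | guess s0 s1 h0 h1 =>
    intro D hD
    cases D with
    | zero => exact absurd hD (by simp [Strat.Within])
    | succ D =>
      simp only [Strat.Within] at hD
      obtain ⟨ι0, _, φ0, hc0, hi0, ha0⟩ := h0 D hD.1
      obtain ⟨ι1, _, φ1, hc1, hi1, ha1⟩ := h1 D hD.2
      refine ⟨ι0 ⊕ ι1, inferInstance, Sum.elim φ0 φ1, ?_, ?_, ?_⟩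
      · rw [Fintype.card_sum, pow_succ]
        calc Fintype.card ι0 + Fintype.card ι1 ≤ B ^ D + B ^ D := Nat.add_le_add hc0 hc1
          _ = B ^ D * 2 := by ring
          _ ≤ B ^ D * B := Nat.mul_le_mul_left _ hB2
      · rintro (i | i) t w w' h
        · exact hi0 i t w w' h
        · exact hi1 i t w w' h
      · intro w
        simp only [Strat.Accepts, ha0, ha1, Sum.exists, Sum.elim_inl, Sum.elim_inr]
  | count N κ T next ih =>
    intro D hD
    cases D with
    | zero => exact absurd hD (by simp [Strat.Within])
    | succ D =>
      simp only [Strat.Within] at hD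
      obtain ⟨hN, hκ, hdep, hnext⟩ := hD
      choose ι hf φ hc hi ha using fun c => ih c D (hnext c)
      -- the part of the count which belongs to player t
      let F : Fin (d+1) → Inp J L d → ℕ := fun t w =>
        (Finset.univ.filter (fun y => (T y).eval (inst w) = true ∧
          missP owner ((T y).path (inst w)) = t)).card
      have hFsum : ∀ w, ∑ t, F t w = countOf T (inst w) := by
        intro w
        unfold countOf
        rw [Finset.card_eq_sum_card_fiberwise
          (f := fun y => missP owner ((T y).path (inst w))) (t := Finset.univ)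
          (fun _ _ => Finset.mem_univ _)]
        refine Finset.sum_congr rfl fun t _ => ?_
        rw [Finset.filter_filter]
      have hFlt : ∀ t w, F t w < N ^ κ + 1 := by
        intro t w
        have := Finset.card_filter_le (Finset.univ : Finset (Fin κ → Fin N))
          (fun y => (T y).eval (inst w) = true ∧ missP owner ((T y).path (inst w)) = t)
        simp only [Finset.card_univ, Fintype.card_fun, Fintype.card_fin] at this
        have h2 : F t w ≤ N ^ κ := this
        omega
      have hFind : ∀ t w w', AgreeOff t w w' → F t w = F t w' := by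
        have aux : ∀ t w w', AgreeOff t w w' → ∀ y, ((T y).eval (inst w) = true ∧
            missP owner ((T y).path (inst w)) = t) → ((T y).eval (inst w') = true ∧
            missP owner ((T y).path (inst w')) = t) := by
          intro t w w' h y hy
          have hs := missP_spec owner ((T y).path (inst w))
            (((T y).path_length (inst w)).trans (hdep y))
          rw [hy.2] at hs
          have hcg := DT.congr (inst w) (inst w') (T y)
            (fun b hb => hown t w w' h b (hs b hb))
          rw [hcg.1, hcg.2]
          exact hy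
        intro t w w' h
        have : (Finset.univ.filter (fun y => (T y).eval (inst w) = true ∧
            missP owner ((T y).path (inst w)) = t))
          = (Finset.univ.filter (fun y => (T y).eval (inst w') = true ∧
            missP owner ((T y).path (inst w')) = t)) := by
          ext y
          simp only [Finset.mem_filter, Finset.mem_univ, true_and]
          exact ⟨aux t w w' h y, aux t w' w h.symm y⟩
        show Finset.card _ = Finset.card _
        rw [this]
      -- index type
      let C : Type := {c : Fin (d+1) → Fin (N ^ κ + 1) // ∑ t, (c t : ℕ) < N ^ κ + 1}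
      refine ⟨Σ c : C, ι ⟨_, c.2⟩, inferInstance,
        fun z t w => decide (F t w = (z.1.1 t : ℕ)) && φ ⟨_, z.1.2⟩ z.2 t w, ?_, ?_, ?_⟩
      · rw [Fintype.card_sigma]
        calc ∑ c : C, Fintype.card (ι ⟨_, c.2⟩) ≤ ∑ c : C, B ^ D :=
              Finset.sum_le_sum fun c _ => hc _
          _ = Fintype.card C * B ^ D := by
              rw [Finset.sum_const, Finset.card_univ, smul_eq_mul]
          _ ≤ B * B ^ D := by
              apply Nat.mul_le_mul_right
              refine le_trans (Fintype.card_subtype_le _) ?_
              rw [Fintype.card_fun, Fintype.card_fin, Fintype.card_fin]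
              refine le_trans (Nat.pow_le_pow_left ?_ _) hB
              have h1 : N ^ κ ≤ (N₀ + 1) ^ κ := Nat.pow_le_pow_left (by omega) _
              have h2 : (N₀ + 1) ^ κ ≤ (N₀ + 1) ^ κ₀ := Nat.pow_le_pow_right (by omega) hκ
              omega
          _ = B ^ (D + 1) := by ring
      · intro z t w w' h
        simp only [hFind t w w' h, hi _ z.2 t w w' h]
      · intro w
        simp only [Strat.Accepts, Bool.and_eq_true, decide_eq_true_eq]
        rw [ha]
        constructor
        · rintro ⟨i, hiw⟩
          have hs : ∑ t, ((⟨F t w, hFlt t w⟩ : Fin (N ^ κ + 1)) : ℕ) < N ^ κ + 1 := by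
            simp only
            rw [hFsum]
            exact countOf_lt T _
          have heq : (⟨countOf T (inst w), countOf_lt T (inst w)⟩ : Fin (N ^ κ + 1))
              = ⟨∑ t, ((⟨F t w, hFlt t w⟩ : Fin (N ^ κ + 1)) : ℕ), hs⟩ := by
            apply Fin.ext
            simp only
            rw [hFsum]
          refine ⟨⟨⟨fun t => ⟨F t w, hFlt t w⟩, hs⟩, heq ▸ i⟩, ?_⟩
          intro t
          refine ⟨rfl, ?_⟩
          have gen : ∀ (z z' : Fin (N ^ κ + 1)) (e : z = z') (i : ι z),
              φ z i t w = true → φ z' (e ▸ i) t w = true := by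
            intro z z' e i h
            subst e
            exact h
          exact gen _ _ heq i (hiw t)
        · rintro ⟨⟨c, i⟩, hiw⟩
          have hcf : ∀ t, F t w = (c.1 t : ℕ) := fun t => (hiw t).1
          have heq : (⟨∑ t, (c.1 t : ℕ), c.2⟩ : Fin (N ^ κ + 1))
              = ⟨countOf T (inst w), countOf_lt T (inst w)⟩ := by
            apply Fin.ext
            simp only
            rw [← hFsum]
            exact Finset.sum_congr rfl fun t _ => (hcf t).symm
          rw [← heq]
          exact ⟨i, fun t => (hiw t).2⟩

end Pool.Agent.Lib_helper62.PToda
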