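import Pool.Agent.Lib_helper62.PToda.Main

namespace Pool.Agent.Lib_helper62.PToda

open Finset Filter

lemma eventually_log (K : ℕ) : ∀ᶠ n : ℕ in atTop, K * (Nat.log 2 n + 1) ≤ n := by
  have h1 : Tendsto (fun n : ℕ => Real.log n / n) atTop (nhds 0) := by
    have := (Real.isLittleO_log_id_atTop).tendsto_div_nhds_zero
    exact this.comp tendsto_natCast_atTop_atTop
  have h2 : Tendsto (fun n : ℕ => (1:ℝ) / n) atTop (nhds 0) := tendsto_one_div_atTop_nhds_zero_nat
  have h3 : Tendsto (fun n : ℕ => (K:ℝ) * ((1 / Real.log 2) * (Real.log n / n) + 1 / n)) atTop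
      (nhds ((K:ℝ) * ((1 / Real.log 2) * 0 + 0))) :=
    ((h1.const_mul _).add h2).const_mul _
  simp only [mul_zero, add_zero] at h3
  filter_upwards [h3.eventually_lt_const (show (0:ℝ) < 1 by norm_num), eventually_ge_atTop 1]
    with n hn hn1
  have hnr : (0:ℝ) < n := by exact_mod_cast hn1
  have hl2 : 0 < Real.log 2 := Real.log_pos (by norm_num)
  have hlog : (Nat.log 2 n : ℝ) ≤ Real.log n / Real.log 2 := by
    rw [le_div_iff₀ hl2, ← Real.log_pow]
    apply Real.log_le_log (by positivity)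
    exact_mod_cast Nat.pow_log_le_self 2 (by omega)
  have : (K:ℝ) * ((Nat.log 2 n : ℝ) + 1) ≤ n := by
    have e : (K:ℝ) * ((1 / Real.log 2) * (Real.log n / n) + 1 / n)
        = K * (Real.log n / Real.log 2 + 1) / n := by
      field_simp
    rw [e, div_lt_one hnr] at hn
    refine le_trans ?_ hn.le
    gcongr
  exact_mod_cast this

/-- The arithmetic of the parameters. -/
lemma params (c k F G : ℕ) (hk : c < k) :
    ∀ᶠ n : ℕ in atTop, G + 1 ≤ n ∧ ∃ m, m * ptr G ^ G ≤ n ^ k ∧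
      (((F * n ^ c + 1) ^ G + 1) ^ (G + 1)) ^ (F * n ^ c) < 2 ^ m := by
  set P := ptr G ^ G with hP
  have hPpos : 0 < P := pow_pos (ptr_pos G) _
  filter_upwards [eventually_log (P * (((G + 1) * (G + 1)) * (F * (c + 1)) + 1) + 1),
    eventually_ge_atTop (G + F + 3)] with n hn hnG
  refine ⟨by omega, n ^ k / P, Nat.div_mul_le_self _ _, ?_⟩
  have hn0 : 0 < n := by omega
  have hn1 : 1 ≤ n ^ c := Nat.one_le_pow _ _ hn0
  -- base
  have hb1 : F * n ^ c + 2 ≤ n ^ (c + 1) := by
    rw [pow_succ, mul_comm (n ^ c)]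
    calc F * n ^ c + 2 ≤ F * n ^ c + 2 * n ^ c := by omega
      _ = (F + 2) * n ^ c := by ring
      _ ≤ n * n ^ c := Nat.mul_le_mul_right _ (by omega)
  have hb2 : n ^ (c + 1) ≤ 2 ^ ((Nat.log 2 n + 1) * (c + 1)) := by
    rw [pow_mul]
    exact Nat.pow_le_pow_left (Nat.lt_pow_succ_log_self (by norm_num) n).le _
  have hb3 : (F * n ^ c + 1) ^ G + 1 ≤ (2 ^ ((Nat.log 2 n + 1) * (c + 1))) ^ (G + 1) := by
    calc (F * n ^ c + 1) ^ G + 1 ≤ (F * n ^ c + 2) ^ (G + 1) := by
          have h1 : (F * n ^ c + 1) ^ G ≤ (F * n ^ c + 2) ^ G := Nat.pow_le_pow_left (by omega) _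
          have h2 : 1 ≤ (F * n ^ c + 2) ^ G := Nat.one_le_pow _ _ (by omega)
          calc (F * n ^ c + 1) ^ G + 1 ≤ (F * n ^ c + 2) ^ G + (F * n ^ c + 2) ^ G := by omega
            _ = (F * n ^ c + 2) ^ G * 2 := by ring
            _ ≤ (F * n ^ c + 2) ^ G * (F * n ^ c + 2) := Nat.mul_le_mul_left _ (by omega)
            _ = (F * n ^ c + 2) ^ (G + 1) := by rw [pow_succ]
      _ ≤ _ := Nat.pow_le_pow_left (hb1.trans hb2) _
  have hb4 : (((F * n ^ c + 1) ^ G + 1) ^ (G + 1)) ^ (F * n ^ c)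
      ≤ 2 ^ ((Nat.log 2 n + 1) * (c + 1) * (G + 1) * (G + 1) * (F * n ^ c)) := by
    refine (Nat.pow_le_pow_left (Nat.pow_le_pow_left hb3 _) _).trans (le_of_eq ?_)
    rw [← pow_mul, ← pow_mul, ← pow_mul]
    congr 1
    ring
  refine hb4.trans_lt (Nat.pow_lt_pow_right (by norm_num) ?_)
  refine Nat.lt_of_succ_le ((Nat.le_div_iff_mul_le hPpos).2 ?_)
  set l := Nat.log 2 n + 1 with hl
  have hlpos : 1 ≤ l := by omega
  have h5 : (P * (((G + 1) * (G + 1)) * (F * (c + 1)) + 1)) * l < n := by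
    have : (P * (((G + 1) * (G + 1)) * (F * (c + 1)) + 1)) * l + l ≤ n := by
      calc _ = (P * (((G + 1) * (G + 1)) * (F * (c + 1)) + 1) + 1) * l := by ring
        _ ≤ n := hn
    omega
  calc (l * (c + 1) * (G + 1) * (G + 1) * (F * n ^ c) + 1) * P
      ≤ (P * (((G + 1) * (G + 1)) * (F * (c + 1)) + 1)) * l * n ^ c := by
        have e : P * (l * (c + 1) * (G + 1) * (G + 1) * (F * n ^ c)) + P * (l * n ^ c)
          = (P * (((G + 1) * (G + 1)) * (F * (c + 1)) + 1)) * l * n ^ c := by ring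
        have e2 : P * 1 ≤ P * (l * n ^ c) := Nat.mul_le_mul_left _ (by nlinarith)
        have e3 : (l * (c + 1) * (G + 1) * (G + 1) * (F * n ^ c) + 1) * P
          = P * (l * (c + 1) * (G + 1) * (G + 1) * (F * n ^ c)) + P * 1 := by ring
        omega
    _ ≤ n * n ^ c := Nat.mul_le_mul_right _ h5.le
    _ = n ^ (c + 1) := by rw [pow_succ, mul_comm]
    _ ≤ n ^ k := Nat.pow_le_pow_right hn0 hk

/-- Algorithms depend only on finitely many levels of the oracle. -/
lemma DT.finite (t : DT Bits) : ∃ N : ℕ, ∀ A A' : Bits → Bool,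
    (∀ b : Bits, b.2.1 ≤ N → A b = A' b) → t.eval A = t.eval A' := by
  induction t with
  | leaf b => exact ⟨0, fun _ _ _ => rfl⟩
  | node q t0 t1 h0 h1 =>
    obtain ⟨N0, h0⟩ := h0
    obtain ⟨N1, h1⟩ := h1
    refine ⟨max q.2.1 (max N0 N1), fun A A' h => ?_⟩
    have e0 := h0 A A' (fun b hb => h b (le_trans hb (by simp)))
    have e1 := h1 A A' (fun b hb => h b (le_trans hb (by simp)))
    have eq : A q = A' q := h q (le_max_left _ _)
    simp only [DT.eval, e0, e1, eq]

lemma Strat.finite (S : Strat Bits) : ∃ N : ℕ, ∀ A A' : Bits → Bool,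
    (∀ b : Bits, b.2.1 ≤ N → A b = A' b) → (S.Accepts A ↔ S.Accepts A') := by
  induction S with
  | answer b => exact ⟨0, fun _ _ _ => Iff.rfl⟩
  | guess s0 s1 h0 h1 =>
    obtain ⟨N0, h0⟩ := h0
    obtain ⟨N1, h1⟩ := h1
    refine ⟨max N0 N1, fun A A' h => ?_⟩
    have e0 := h0 A A' (fun b hb => h b (le_trans hb (by simp)))
    have e1 := h1 A A' (fun b hb => h b (le_trans hb (by simp)))
    simp only [Strat.Accepts, e0, e1]
  | count N κ T next ih =>
    choose M hM using ih
    choose R hR using fun y => DT.finite (T y)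
    refine ⟨max (Finset.univ.sup M) (Finset.univ.sup R), fun A A' h => ?_⟩
    have hT : ∀ y, (T y).eval A = (T y).eval A' := fun y => hR y A A' (fun b hb => h b
      (le_trans hb (le_trans (Finset.le_sup (f := R) (Finset.mem_univ y)) (le_max_right _ _))))
    have hc : countOf T A = countOf T A' := by
      unfold countOf
      simp only [hT]
    have hn := hM ⟨countOf T A, countOf_lt T A⟩ A A' (fun b hb => h b
      (le_trans hb (le_trans (Finset.le_sup (f := M) (Finset.mem_univ _)) (le_max_left _ _))))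
    simp only [Strat.Accepts]
    rw [hn]
    simp only [hc]

/-- The oracle: no algorithm of a countable family decides the complement. -/
theorem oracle_exists {ι : Type} [Countable ι] (alg : ι → ℕ → ℕ → Strat Bits)
    (F G : ι → ℕ → ℕ) (c : ι → ℕ)
    (hw : ∀ i k n, (alg i k n).Within (F i k * n ^ c i) (G i k) (G i k) (F i k * n ^ c i)) :
    ∃ A : Bits → Bool, ∀ i k, c i < k → ∀ n₀, ∃ n, n₀ ≤ n ∧
      ¬ ((alg i k n).Accepts A ↔ ¬ Yes A k n) := by
  rcases isEmpty_or_nonempty ι with hι | hι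
  · exact ⟨fun _ => false, fun i => (hι.false i).elim⟩
  obtain ⟨e, he⟩ := exists_surjective_nat (ι × ℕ × ℕ)
  -- one step
  have step : ∀ (s : ℕ) (σ : (Bits → Bool) × ℕ), ∃ σ' : (Bits → Bool) × ℕ,
      σ.2 < σ'.2 ∧ (∀ b : Bits, b.2.1 ≤ σ.2 → σ'.1 b = σ.1 b) ∧
      (c (e s).1 < (e s).2.1 → ∃ n, (e s).2.2 ≤ n ∧ ∀ A : Bits → Bool,
        (∀ b : Bits, b.2.1 ≤ σ'.2 → A b = σ'.1 b) →
        ¬ ((alg (e s).1 (e s).2.1 n).Accepts A ↔ ¬ Yes A (e s).2.1 n)) := by
    intro s σ
    obtain ⟨i, k, n₀⟩ := e s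
    simp only
    by_cases hk : c i < k
    · have hev := (params (c i) k (F i k) (G i k) hk).and
        ((eventually_ge_atTop (max n₀ (σ.2 + 1))))
      obtain ⟨n, ⟨hG, m, hm, hlt⟩, hn⟩ := hev.exists
      have hn0 : n₀ ≤ n := le_trans (le_max_left _ _) hn
      have hn1 : σ.2 + 1 ≤ n := le_trans (le_max_right _ _) hn
      have hex : ∃ A : Bits → Bool, (∀ b : Bits, ¬ (b.1 = k ∧ b.2.1 = n) → A b = σ.1 b) ∧
          ¬ ((alg i k n).Accepts A ↔ ¬ Yes A k n) := by
        by_contra hcon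
        have := instance_bound k n (G i k) m (F i k * n ^ c i) (G i k) (F i k * n ^ c i) hG hm
          σ.1 (alg i k n) (hw i k n)
          (fun A hA => by_contra fun h => hcon ⟨A, hA, h⟩)
        omega
      obtain ⟨A, hA1, hA2⟩ := hex
      obtain ⟨N, hN⟩ := Strat.finite (alg i k n)
      refine ⟨(A, max n N), ?_, ?_, ?_⟩
      · simp only
        have := le_max_left n N
        omega
      · intro b hb
        apply hA1
        rintro ⟨_, h2⟩
        omega
      · intro _
        refine ⟨n, hn0, fun A' hA' => ?_⟩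
        have e1 : (alg i k n).Accepts A' ↔ (alg i k n).Accepts A :=
          hN A' A (fun b hb => hA' b (le_trans hb (le_max_right _ _)))
        have e2 : Yes A' k n ↔ Yes A k n := by
          unfold Yes
          have : ∀ (s : Fin k → Fin n) (v : Fin n),
              A' (k, n, List.ofFn (fun i => (s i : ℕ)), (v : ℕ))
              = A (k, n, List.ofFn (fun i => (s i : ℕ)), (v : ℕ)) :=
            fun s v => hA' _ (le_max_left _ _)
          simp only [this]
        rw [e1, e2]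
        exact hA2
    · exact ⟨(σ.1, σ.2 + 1), by simp, fun _ _ => rfl, fun h => absurd h hk⟩
  choose nxt h1 h2 h3 using step
  let σ : ℕ → (Bits → Bool) × ℕ := fun s => Nat.rec ((fun _ => false), 0) (fun s τ => nxt s τ) s
  have hσ : ∀ s, σ (s + 1) = nxt s (σ s) := fun s => rfl
  have hM : ∀ s, s ≤ (σ s).2 := by
    intro s
    induction s with
    | zero => exact Nat.zero_le _
    | succ s ih =>
      rw [hσ]
      have := h1 s (σ s)
      omega
  have hMm : ∀ s t, s ≤ t → (σ s).2 ≤ (σ t).2 := by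
    intro s t hst
    induction t, hst using Nat.le_induction with
    | base => exact le_rfl
    | succ t _ ih =>
      rw [hσ]
      have := h1 t (σ t)
      omega
  have hstab : ∀ s t, s ≤ t → ∀ b : Bits, b.2.1 ≤ (σ s).2 → (σ t).1 b = (σ s).1 b := by
    intro s t hst
    induction t, hst using Nat.le_induction with
    | base => intro b _; rfl
    | succ t ht ih =>
      intro b hb
      rw [hσ, h2 t (σ t) b (le_trans hb (hMm s t ht)), ih b hb]
  refine ⟨fun b => (σ b.2.1).1 b, fun i k hk n₀ => ?_⟩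
  obtain ⟨s, hs⟩ := he (i, k, n₀)
  have h := h3 s (σ s)
  rw [hs] at h
  obtain ⟨n, hn, hA⟩ := h hk
  refine ⟨n, hn, hA _ ?_⟩
  intro b hb
  rw [← hσ] at hb ⊢
  rcases le_total b.2.1 (s + 1) with hle | hle
  · exact (hstab b.2.1 (s + 1) hle b (hM _)).symm
  · exact hstab (s + 1) b.2.1 hle b hb

end Pool.Agent.Lib_helper62.PToda
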