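import Mathlib

namespace Pool.Agent.Lib_helper62.PToda

open Finset

/-- Average of a real function over a finite type. -/
noncomputable def av {Y : Type*} [Fintype Y] (f : Y → ℝ) : ℝ :=
  (∑ y, f y) / (Fintype.card Y : ℝ)

section av
variable {Y Z : Type*} [Fintype Y] [Fintype Z]

lemma av_mono {f g : Y → ℝ} (h : ∀ y, f y ≤ g y) : av f ≤ av g := by
  unfold av
  gcongr with y
  exact h y

lemma av_nonneg {f : Y → ℝ} (h : ∀ y, 0 ≤ f y) : 0 ≤ av f := by
  unfold av
  exact div_nonneg (Finset.sum_nonneg fun y _ => h y) (Nat.cast_nonneg _)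

lemma av_const [Nonempty Y] (c : ℝ) : av (fun _ : Y => c) = c := by
  unfold av
  have : (Fintype.card Y : ℝ) ≠ 0 := by exact_mod_cast Fintype.card_ne_zero
  simp only [Finset.sum_const, nsmul_eq_mul, Finset.card_univ]
  field_simp

lemma av_prod (f : Y → Z → ℝ) :
    av (fun z : Y × Z => f z.1 z.2) = av (fun y => av (fun z => f y z)) := by
  unfold av
  rw [Fintype.sum_prod_type, Fintype.card_prod, ← Finset.sum_div, div_div]
  push_cast
  rw [mul_comm]

lemma av_prod' (f : Y → Z → ℝ) :
    av (fun z : Y × Z => f z.1 z.2) = av (fun z => av (fun y => f y z)) := by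
  unfold av
  rw [Fintype.sum_prod_type_right, Fintype.card_prod, ← Finset.sum_div, div_div]
  push_cast
  rfl

lemma av_equiv (e : Y ≃ Z) (f : Z → ℝ) : av (fun y => f (e y)) = av f := by
  unfold av
  rw [Equiv.sum_comp e f, Fintype.card_congr e]

lemma av_mul_left (c : ℝ) (f : Y → ℝ) : av (fun y => c * f y) = c * av f := by
  unfold av
  rw [← Finset.mul_sum, mul_div_assoc]

lemma av_sum {ι : Type*} (s : Finset ι) (f : ι → Y → ℝ) :
    av (fun y => ∑ i ∈ s, f i y) = ∑ i ∈ s, av (f i) := by
  unfold av
  rw [Finset.sum_comm, Finset.sum_div]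

lemma abs_av_le (f : Y → ℝ) : |av f| ≤ av (fun y => |f y|) := by
  unfold av
  rw [abs_div, Nat.abs_cast]
  gcongr
  exact Finset.abs_sum_le_sum_abs _ _

lemma av_mul_sq_le (u v : Y → ℝ) :
    (av (fun y => u y * v y)) ^ 2 ≤ av (fun y => u y ^ 2) * av (fun y => v y ^ 2) := by
  unfold av
  rw [div_pow, div_mul_div_comm, sq (Fintype.card Y : ℝ)]
  gcongr
  exact Finset.sum_mul_sq_le_sq_mul_sq _ _ _

lemma av_pow_le [Nonempty Y] (f : Y → ℝ) (hf : ∀ y, 0 ≤ f y) (n : ℕ) :
    (av f) ^ n ≤ av (fun y => f y ^ n) := by
  have hc : (0:ℝ) < Fintype.card Y := by exact_mod_cast Fintype.card_pos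
  have h := Real.pow_arith_mean_le_arith_mean_pow (Finset.univ : Finset Y)
    (fun _ => (1:ℝ) / Fintype.card Y) f (fun _ _ => by positivity)
    (by simp [Finset.sum_const]) (fun y _ => hf y) n
  have e1 : (∑ i, (1:ℝ) / Fintype.card Y * f i) = av f := by
    unfold av; rw [← Finset.mul_sum]; ring
  have e2 : (∑ i, (1:ℝ) / Fintype.card Y * f i ^ n) = av (fun y => f y ^ n) := by
    unfold av; rw [← Finset.mul_sum]; ring
  rw [e1, e2] at h
  exact h

/-- Averages of products over a finite power. -/
lemma av_pi {J : Type*} [Fintype J] [DecidableEq J] (h : J → Y → ℝ) :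
    av (fun a : J → Y => ∏ j, h j (a j)) = ∏ j, av (h j) := by
  unfold av
  rw [Finset.prod_div_distrib, Finset.prod_univ_sum, Fintype.piFinset_univ]
  simp [Fintype.card_pi]

lemma av_cons {A : Type*} [Fintype A] {d : ℕ} (G : (Fin (d+1) → A) → Y → ℝ) :
    av (fun z : (Fin (d+1) → A) × Y => G z.1 z.2)
      = av (fun z : (Fin d → A) × Y => av (fun a : A => G (Fin.cons a z.1) z.2)) := by
  let e : A × ((Fin d → A) × Y) ≃ (Fin (d+1) → A) × Y :=
    (Equiv.prodAssoc A (Fin d → A) Y).symm.trans
      (Equiv.prodCongr (Fin.consEquiv (fun _ : Fin (d+1) => A)) (Equiv.refl Y))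
  rw [← av_equiv e]
  exact av_prod' (fun (a : A) (z : (Fin d → A) × Y) => G (Fin.cons a z.1) z.2)

end av

/-- Sign of a bit. -/
def sgn (b : Bool) : ℝ := if b then -1 else 1

lemma sgn_sq (b : Bool) : sgn b * sgn b = 1 := by cases b <;> simp [sgn]

lemma abs_sgn (b : Bool) : |sgn b| = 1 := by cases b <;> simp [sgn]

lemma sgn_xor (a b : Bool) : sgn (a ^^ b) = sgn a * sgn b := by
  cases a <;> cases b <;> simp [sgn]

section main
variable {J : Type} [Fintype J] [DecidableEq J]

/-- The number on forehead discrepancy bound for the pointer tensor of the parity function. -/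
theorem disc_bound (L : ℕ) (hL : 0 < L) (d : ℕ) : ∀ (Y : Type) [Fintype Y] [Nonempty Y]
    (J' : Finset J) (ξ : Y → J → (Fin d → Fin L) → Bool)
    (_ : ∀ E : Finset (J × (Fin d → Fin L)), E.Nonempty → (∀ e ∈ E, e.1 ∈ J') →
      av (fun y => ∏ e ∈ E, sgn (ξ y e.1 e.2)) = 0)
    (φ0 : (Fin d → J → Fin L) → ℝ) (φ : Fin d → (Fin d → J → Fin L) → Y → ℝ)
    (_ : ∀ p, |φ0 p| ≤ 1) (_ : ∀ i p y, |φ i p y| ≤ 1)
    (_ : ∀ i p p' y, (∀ k, k ≠ i → p k = p' k) → φ i p y = φ i p' y),
    |av (fun z : (Fin d → J → Fin L) × Y =>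
      (∏ j ∈ J', sgn (ξ z.2 j (fun i => z.1 i j))) * φ0 z.1 * ∏ i, φ i z.1 z.2)| ^ (2 ^ d)
      ≤ ((d : ℝ) / L) ^ J'.card := by
  have : Nonempty (Fin L) := ⟨⟨0, hL⟩⟩
  have hLr : (0:ℝ) < L := by exact_mod_cast hL
  induction d with
  | zero =>
    intro Y _ _ J' ξ hξ φ0 φ h0 h1 hi
    rw [av_prod (fun (p : Fin 0 → J → Fin L) (y : Y) =>
      (∏ j ∈ J', sgn (ξ y j (fun i => p i j))) * φ0 p * ∏ i, φ i p y)]
    have hconst : ∀ p : Fin 0 → J → Fin L,
        av (fun y => (∏ j ∈ J', sgn (ξ y j (fun i => p i j))) * φ0 p * ∏ i, φ i p y)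
        = φ0 p * av (fun y => ∏ j ∈ J', sgn (ξ y j default)) := by
      intro p
      rw [← av_mul_left]
      congr 1
      funext y
      have : ∀ j : J, (fun i : Fin 0 => p i j) = default := fun j => Subsingleton.elim _ _
      simp only [this, Finset.univ_eq_empty, Finset.prod_empty, mul_one]
      rw [mul_comm]
    simp only [hconst]
    rcases J'.eq_empty_or_nonempty with hJ | hJ
    · subst hJ
      simp only [Finset.prod_empty, av_const, mul_one, pow_zero, pow_one, Finset.card_empty]
      refine (abs_av_le _).trans ?_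
      exact (av_mono h0).trans (le_of_eq (av_const 1))
    · have hz : av (fun y => ∏ j ∈ J', sgn (ξ y j default)) = 0 := by
        have := hξ (J'.image (fun j => (j, default))) (hJ.image _) (by
          intro e he
          rw [Finset.mem_image] at he
          obtain ⟨j, hj, rfl⟩ := he
          exact hj)
        rw [← this]
        congr 1
        funext y
        rw [Finset.prod_image]
        intro a _ b _ hab
        exact (Prod.mk.inj hab).1
      simp only [hz, mul_zero, av_const, abs_zero, pow_zero, pow_one]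
      positivity
  | succ d ih =>
    intro Y _ _ J' ξ hξ φ0 φ h0 h1 hi
    let a0 : J → Fin L := fun _ => ⟨0, hL⟩
    -- the function under the average
    let H : (J → Fin L) → (Fin d → J → Fin L) × Y → ℝ := fun a z =>
      (∏ j ∈ J', sgn (ξ z.2 j (Fin.cons (a j) (fun i => z.1 i j)))) * φ0 (Fin.cons a z.1) *
        ∏ i : Fin d, φ i.succ (Fin.cons a z.1) z.2
    let ψ : (Fin d → J → Fin L) × Y → ℝ := fun z => φ 0 (Fin.cons a0 z.1) z.2
    have hψ : ∀ (a : J → Fin L) (z : (Fin d → J → Fin L) × Y),
        φ 0 (Fin.cons a z.1) z.2 = ψ z := by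
      intro a z
      apply hi
      intro k hk
      obtain ⟨k', rfl⟩ := Fin.exists_succ_eq.2 hk
      simp
    have hcons : ∀ (a : J → Fin L) (p : Fin d → J → Fin L) (j : J),
        (fun i : Fin (d+1) => (Fin.cons a p : Fin (d+1) → J → Fin L) i j)
          = (Fin.cons (a j) (fun i => p i j) : Fin (d+1) → Fin L) := by
      intro a p j
      funext i
      refine Fin.cases ?_ ?_ i
      · simp
      · intro i; simp
    have step1 : av (fun z : (Fin (d+1) → J → Fin L) × Y =>
        (∏ j ∈ J', sgn (ξ z.2 j (fun i => z.1 i j))) * φ0 z.1 * ∏ i, φ i z.1 z.2)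
        = av (fun z : (Fin d → J → Fin L) × Y => ψ z * av (fun a : J → Fin L => H a z)) := by
      rw [av_cons (fun (p : Fin (d+1) → J → Fin L) (y : Y) =>
        (∏ j ∈ J', sgn (ξ y j (fun i => p i j))) * φ0 p * ∏ i, φ i p y)]
      congr 1
      funext z
      rw [← av_mul_left]
      congr 1
      funext a
      rw [Fin.prod_univ_succ, hψ]
      simp only [hcons, H]
      ring
    -- the derivative functions
    have key : ∀ a a' : J → Fin L,
        |av (fun z => H a z * H a' z)| ^ (2 ^ d)
          ≤ ((d : ℝ) / L) ^ (J'.filter (fun j => a j ≠ a' j)).card := by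
      intro a a'
      have := ih Y (J'.filter (fun j => a j ≠ a' j))
        (fun y j q => ξ y j (Fin.cons (a j) q) ^^ ξ y j (Fin.cons (a' j) q)) ?_
        (fun p => φ0 (Fin.cons a p) * φ0 (Fin.cons a' p))
        (fun i p y => φ i.succ (Fin.cons a p) y * φ i.succ (Fin.cons a' p) y) ?_ ?_ ?_
      · refine le_trans (le_of_eq ?_) this
        congr 2
        congr 1
        funext z
        simp only [H, sgn_xor, Finset.prod_mul_distrib]
        have hf : ∀ g : J → ℝ, (∀ j ∈ J', a j = a' j → g j = 1) →
            ∏ j ∈ J', g j = ∏ j ∈ J'.filter (fun j => a j ≠ a' j), g j := by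
          intro g hg
          rw [Finset.prod_filter]
          refine Finset.prod_congr rfl fun j hj => ?_
          split_ifs with h
          · rfl
          · exact hg j hj (not_not.1 h)
        have h2 := hf (fun j => sgn (ξ z.2 j (Fin.cons (a j) (fun i => z.1 i j))) *
          sgn (ξ z.2 j (Fin.cons (a' j) (fun i => z.1 i j)))) (by
            intro j _ hj
            rw [hj, sgn_sq])
        simp only [Finset.prod_mul_distrib] at h2
        rw [← h2]
        ring
      · -- characters vanish
        intro E hE hEJ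
        have hinj : ∀ b : J → Fin L, Function.Injective
            (fun e : J × (Fin d → Fin L) => ((e.1, Fin.cons (b e.1) e.2) : J × (Fin (d+1) → Fin L))) := by
          intro b e e' h
          obtain ⟨h1, h2⟩ := Prod.mk.inj h
          have h3 : e.1 = e'.1 := h1
          rw [h3] at h2
          have h4 := (Fin.cons_inj.1 h2).2
          exact Prod.ext h3 h4
        have hdisj : Disjoint
            (E.image (fun e => ((e.1, Fin.cons (a e.1) e.2) : J × (Fin (d+1) → Fin L))))
            (E.image (fun e => ((e.1, Fin.cons (a' e.1) e.2) : J × (Fin (d+1) → Fin L)))) := by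
          rw [Finset.disjoint_left]
          intro x hx hx'
          rw [Finset.mem_image] at hx hx'
          obtain ⟨e, he, rfl⟩ := hx
          obtain ⟨e', he', h⟩ := hx'
          obtain ⟨h1, h2⟩ := Prod.mk.inj h
          have h3 : e'.1 = e.1 := h1
          rw [h3] at h2
          have h4 := (Fin.cons_inj.1 h2).1
          have := hEJ e he
          rw [Finset.mem_filter] at this
          exact this.2 h4.symm
        have := hξ ((E.image (fun e => ((e.1, Fin.cons (a e.1) e.2) : J × (Fin (d+1) → Fin L)))) ∪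
          (E.image (fun e => ((e.1, Fin.cons (a' e.1) e.2) : J × (Fin (d+1) → Fin L)))))
          ((hE.image _).mono Finset.subset_union_left) (by
            intro x hx
            rw [Finset.mem_union, Finset.mem_image, Finset.mem_image] at hx
            rcases hx with ⟨e, he, rfl⟩ | ⟨e, he, rfl⟩
            · exact (Finset.mem_filter.1 (hEJ e he)).1
            · exact (Finset.mem_filter.1 (hEJ e he)).1)
        rw [← this]
        congr 1
        funext y
        rw [Finset.prod_union hdisj, Finset.prod_image (fun x _ y _ h => hinj a h),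
          Finset.prod_image (fun x _ y _ h => hinj a' h), ← Finset.prod_mul_distrib]
        refine Finset.prod_congr rfl fun e _ => ?_
        rw [sgn_xor]
      · intro p
        rw [abs_mul]
        exact mul_le_one₀ (h0 _) (abs_nonneg _) (h0 _)
      · intro i p y
        rw [abs_mul]
        exact mul_le_one₀ (h1 _ _ _) (abs_nonneg _) (h1 _ _ _)
      · intro i p p' y hp
        have hh : ∀ b : J → Fin L, φ i.succ (Fin.cons b p) y = φ i.succ (Fin.cons b p') y := by
          intro b
          apply hi
          intro k hk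
          refine Fin.cases ?_ ?_ k hk
          · intro _; simp
          · intro k hk
            simp only [Fin.cons_succ]
            exact hp k (fun h => hk (by rw [h]))
        simp only [hh]
    -- Cauchy-Schwarz
    have hψ1 : ∀ z, ψ z ^ 2 ≤ 1 := by
      intro z
      rw [← sq_abs]
      exact pow_le_one₀ (abs_nonneg _) (h1 _ _ _)
    have cs : |av (fun z : (Fin d → J → Fin L) × Y => ψ z * av (fun a : J → Fin L => H a z))| ^ 2
        ≤ av (fun w : (J → Fin L) × (J → Fin L) => av (fun z => H w.1 z * H w.2 z)) := by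
      rw [sq_abs]
      refine (av_mul_sq_le _ _).trans ?_
      have e1 : av (fun z : (Fin d → J → Fin L) × Y => ψ z ^ 2) ≤ 1 :=
        (av_mono hψ1).trans (le_of_eq (av_const 1))
      have e2 : 0 ≤ av (fun z : (Fin d → J → Fin L) × Y => av (fun a : J → Fin L => H a z) ^ 2) :=
        av_nonneg fun z => sq_nonneg _
      refine (mul_le_mul_of_nonneg_right e1 e2).trans ?_
      rw [one_mul]
      apply le_of_eq
      have e3 : ∀ z : (Fin d → J → Fin L) × Y, av (fun a : J → Fin L => H a z) ^ 2
          = av (fun w : (J → Fin L) × (J → Fin L) => H w.1 z * H w.2 z) := by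
        intro z
        rw [av_prod (fun a a' => H a z * H a' z)]
        simp only [av_mul_left]
        rw [sq, ← av_mul_left]
        congr 1
        funext a
        ring
      simp only [e3]
      rw [← av_prod (fun (z : (Fin d → J → Fin L) × Y) (w : (J → Fin L) × (J → Fin L)) =>
        H w.1 z * H w.2 z)]
      rw [av_prod' (fun (z : (Fin d → J → Fin L) × Y) (w : (J → Fin L) × (J → Fin L)) =>
        H w.1 z * H w.2 z)]
    rw [step1, pow_succ, mul_comm, pow_mul]
    refine (pow_le_pow_left₀ (sq_nonneg _) cs _).trans ?_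
    have j1 : av (fun w : (J → Fin L) × (J → Fin L) => av (fun z => H w.1 z * H w.2 z))
        ≤ av (fun w : (J → Fin L) × (J → Fin L) => |av (fun z => H w.1 z * H w.2 z)|) :=
      av_mono fun w => le_abs_self _
    have j0 : 0 ≤ av (fun w : (J → Fin L) × (J → Fin L) => av (fun z => H w.1 z * H w.2 z)) :=
      le_trans (sq_nonneg _) cs
    refine (pow_le_pow_left₀ j0 j1 _).trans ?_
    have j2 := av_pow_le (fun w : (J → Fin L) × (J → Fin L) =>
      |av (fun z => H w.1 z * H w.2 z)|) (fun w => abs_nonneg _) (2 ^ d)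
    refine j2.trans ?_
    have j3 : av (fun w : (J → Fin L) × (J → Fin L) =>
        |av (fun z => H w.1 z * H w.2 z)| ^ (2 ^ d))
        ≤ av (fun w : (J → Fin L) × (J → Fin L) =>
          ((d : ℝ) / L) ^ (J'.filter (fun j => w.1 j ≠ w.2 j)).card) :=
      av_mono (fun w => key w.1 w.2)
    refine j3.trans ?_
    -- product over the blocks
    have e4 : ∀ w : (J → Fin L) × (J → Fin L),
        ((d : ℝ) / L) ^ (J'.filter (fun j => w.1 j ≠ w.2 j)).card
          = ∏ j, (if j ∈ J' then (if w.1 j ≠ w.2 j then (d:ℝ) / L else 1) else 1) := by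
      intro w
      rw [Finset.prod_ite_mem, Finset.univ_inter, ← Finset.prod_const, Finset.prod_filter]
    simp only [e4]
    have e5 : av (fun w : (J → Fin L) × (J → Fin L) =>
        ∏ j, (if j ∈ J' then (if w.1 j ≠ w.2 j then (d:ℝ) / L else 1) else 1))
        = av (fun u : J → Fin L × Fin L =>
          ∏ j, (if j ∈ J' then (if (u j).1 ≠ (u j).2 then (d:ℝ) / L else 1) else 1)) := by
      rw [← av_equiv (Equiv.arrowProdEquivProdArrow J (fun _ => Fin L) (fun _ => Fin L))]
      rfl
    rw [e5, av_pi (fun (j : J) (v : Fin L × Fin L) =>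
      (if j ∈ J' then (if v.1 ≠ v.2 then (d:ℝ) / L else 1) else 1))]
    have e6 : ∀ j : J, av (fun v : Fin L × Fin L =>
        (if j ∈ J' then (if v.1 ≠ v.2 then (d:ℝ) / L else 1) else 1))
        ≤ if j ∈ J' then ((d+1 : ℕ) : ℝ) / L else 1 := by
      intro j
      split_ifs with hj
      · rw [av_prod (fun (x y : Fin L) => (if x ≠ y then (d:ℝ) / L else 1))]
        have e7 : ∀ x : Fin L, av (fun y : Fin L => (if x ≠ y then (d:ℝ) / L else 1))
            ≤ ((d+1 : ℕ) : ℝ) / L := by
          intro x
          unfold av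
          rw [Fintype.card_fin, div_le_div_iff_of_pos_right hLr]
          have : ∀ y : Fin L, (if x ≠ y then (d:ℝ) / L else 1) ≤ (d:ℝ)/L + (if y = x then 1 else 0) := by
            intro y
            have hd : (0:ℝ) ≤ (d:ℝ)/L := by positivity
            by_cases h : x = y
            · subst h; simp [hd]
            · have h' : ¬ (y = x) := fun h2 => h h2.symm
              simp [h, h']
          refine (Finset.sum_le_sum fun y _ => this y).trans ?_
          rw [Finset.sum_add_distrib, Finset.sum_const, Finset.card_univ, Fintype.card_fin,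
            Finset.sum_ite_eq' Finset.univ x]
          simp only [Finset.mem_univ, if_true, nsmul_eq_mul]
          push_cast
          apply le_of_eq
          field_simp
        exact (av_mono e7).trans (le_of_eq (av_const _))
      · exact le_of_eq (av_const 1)
    refine (Finset.prod_le_prod (fun j _ => ?_) (fun j _ => e6 j)).trans ?_
    · apply av_nonneg
      intro v
      split_ifs <;> positivity
    · rw [Finset.prod_ite_mem, Finset.univ_inter, Finset.prod_const]

end main

end Pool.Agent.Lib_helper62.PToda
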