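import Pool.Agent.Lib_helper62.PToda.Diag

namespace Pool.Agent.Lib_helper62.PToda

/-- Exchange the two answers. -/
def Strat.neg {β : Type} : Strat β → Strat β
  | .answer b => .answer (!b)
  | .guess s0 s1 => .guess s0 s1
  | .count N κ T next => .count N κ T (fun c => (next c).neg)

lemma Strat.neg_accepts {β : Type} (x : β → Bool) (S : Strat β) (hS : S.Deterministic) :
    S.neg.Accepts x ↔ ¬ S.Accepts x := by
  induction S with
  | answer b => cases b <;> simp [Strat.neg, Strat.Accepts]
  | guess s0 s1 h0 h1 => exact absurd hS (by simp [Strat.Deterministic])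
  | count N κ T next ih =>
    simp only [Strat.Deterministic] at hS
    simp only [Strat.neg, Strat.Accepts]
    exact ih _ (hS _)

lemma Strat.neg_within {β : Type} (N₀ κ₀ d₀ : ℕ) (S : Strat β) :
    ∀ D, S.Within N₀ κ₀ d₀ D → S.neg.Within N₀ κ₀ d₀ D := by
  induction S with
  | answer b => intro D _; cases D <;> simp [Strat.neg, Strat.Within]
  | guess s0 s1 h0 h1 => intro D h; exact h
  | count N κ T next ih =>
    intro D h
    cases D with
    | zero => exact absurd h (by simp [Strat.Within])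
    | succ D =>
      simp only [Strat.neg, Strat.Within] at h ⊢
      exact ⟨h.1, h.2.1, h.2.2.1, fun c => ih c D (h.2.2.2 c)⟩

theorem separation {ι : Type} [Countable ι] (alg : ι → ℕ → ℕ → Strat Bits) (c : ι → ℕ)
    (halg : ∀ i, FptBounded (c i) (alg i)) :
    ∃ A : Bits → Bool, ∀ i k, c i < k → ∀ n₀,
      (∃ n, n₀ ≤ n ∧ ¬ ((alg i k n).Accepts A ↔ ¬ Yes A k n)) ∧
      ((∀ n, (alg i k n).Deterministic) →
        ∃ n, n₀ ≤ n ∧ ¬ ((alg i k n).Accepts A ↔ Yes A k n)) := by
  classical
  choose F G hw using halg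
  obtain ⟨A, hA⟩ := oracle_exists (ι := ι × Bool)
    (fun j k n => if j.2 = true then (alg j.1 k n).neg else alg j.1 k n)
    (fun j => F j.1) (fun j => G j.1) (fun j => c j.1) (by
      intro j k n
      split_ifs
      · exact Strat.neg_within _ _ _ _ _ (hw j.1 k n)
      · exact hw j.1 k n)
  refine ⟨A, fun i k hk n₀ => ⟨?_, fun hdet => ?_⟩⟩
  · obtain ⟨n, hn, h⟩ := hA (i, false) k hk n₀
    exact ⟨n, hn, by simpa using h⟩
  · obtain ⟨n, hn, h⟩ := hA (i, true) k hk n₀
    refine ⟨n, hn, fun hcon => h ?_⟩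
    simp only [if_true]
    rw [Strat.neg_accepts _ _ (hdet n), hcon]

end Pool.Agent.Lib_helper62.PToda
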